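import Pool.Agent.H56.KAL.Stmts2

/-!
# The Gibbs variational inequality
-/

set_option autoImplicit false

namespace Pool.KAL

open Finset Real
open Pool.Agent.H49.Ent Pool.Agent.H32.Dense Pool.STK Pool.KAF

/-- **Gibbs variational inequality** for the uniform law on a finite set. -/
theorem gvi_thm : GVIStmt := by
  intro Ω S _ p T F f hp hT
  classical
  have hp0 := hp.nonneg
  have hne : (Finset.univ : Finset Ω).Nonempty := by
    by_contra hcon
    have h1 := hp.sum_one
    rw [Finset.not_nonempty_iff_eq_empty.mp hcon, Finset.sum_empty] at h1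
    exact zero_ne_one h1
  obtain ⟨ω₀, _⟩ := hne
  set Sg : ℝ := ∑ s ∈ F, Real.exp (f s) with hSg
  have hF : F.Nonempty := ⟨T ω₀, hT ω₀⟩
  have hS0 : 0 < Sg := Finset.sum_pos (fun s _ => Real.exp_pos _) hF
  have hcard : (0 : ℝ) < F.card := by exact_mod_cast Finset.card_pos.mpr hF
  have h := CH_le_cross hp0 hp.sum_one T (fun _ => ())
    (fun _ s => if s ∈ F then Real.exp (f s) / Sg else 0)
    (fun ω _ => by
      rw [if_pos (hT ω)]
      positivity)
    (fun _ s => by
      split_ifs
      · positivity
      · exact le_rfl)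
    (fun ω _ G => by
      rw [← Finset.sum_filter, ← Finset.sum_div, div_le_one hS0]
      exact Finset.sum_le_sum_of_subset_of_nonneg
        (fun s hs => (Finset.mem_filter.mp hs).2) (fun s _ _ => (Real.exp_pos _).le))
  have h2 : CH p T (fun _ => ()) = H p T := by
    unfold CH
    rw [H_const hp.sum_one, sub_zero]
    exact H_congr hp0 (fun _ _ _ _ h => Prod.ext h rfl) (fun _ _ _ _ h => (Prod.ext_iff.mp h).1)
  have h3 : Ex p (fun ω => -Real.log (if T ω ∈ F then Real.exp (f (T ω)) / Sg else 0)) =
      Real.log Sg - Ex p (fun ω => f (T ω)) := by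
    have e : (fun ω => -Real.log (if T ω ∈ F then Real.exp (f (T ω)) / Sg else 0)) =
        fun ω => Real.log Sg - f (T ω) := by
      funext ω
      rw [if_pos (hT ω), Real.log_div (Real.exp_pos _).ne' hS0.ne', Real.log_exp]
      ring
    rw [e, Ex_sub, Ex_const hp.sum_one]
  rw [h2, h3] at h
  rw [Real.log_div hS0.ne' hcard.ne']
  linarith

end Pool.KAL
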