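import Pool.Agent.H7.KSAT.Basic
import Pool.Agent.H9.K2.Defs2

/-!
# Random offsets of grids
-/

set_option autoImplicit false

namespace Pool.KA

open Finset Real
open Pool.Agent.H49.Ent Pool.Agent.H32.Dense Pool.STK Pool.KSAT

namespace OFF

/-- Exceptional offsets, integer form. -/
lemma count_int (N q : ℕ) (hN : 0 < N) (A B : ℤ) (hAB : A ≤ B) :
    ((range (N * q)).filter fun j : ℕ => (A + (j : ℤ)) / N ≠ (B + (j : ℤ)) / N).card ≤
      (B - A).toNat * q := by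
  classical
  have hN' : (0 : ℤ) < N := by exact_mod_cast hN
  have hsub : ((range (N * q)).filter fun j : ℕ => (A + (j : ℤ)) / N ≠ (B + (j : ℤ)) / N) ⊆
      ((Ioc A B) ×ˢ (range q)).image fun x => (((-x.1) % N).toNat + N * x.2) := by
    intro j hj
    obtain ⟨hj1, hj2⟩ := Finset.mem_filter.mp hj
    have hjN := Finset.mem_range.mp hj1
    have hle : (A + (j : ℤ)) / N ≤ (B + (j : ℤ)) / N := Int.ediv_le_ediv hN' (by linarith)
    have hlt : (A + (j : ℤ)) / N < (B + (j : ℤ)) / N := lt_of_le_of_ne hle hj2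
    set c : ℤ := N * ((B + (j : ℤ)) / N) with hc
    have h1 : A + j < c := by
      have h := Int.lt_ediv_add_one_mul_self (A + (j : ℤ)) hN'
      have h2 : ((A + (j : ℤ)) / N + 1) * N ≤ c := by
        rw [hc, mul_comm]
        exact mul_le_mul_of_nonneg_left hlt hN'.le
      linarith
    have h2 : c ≤ B + j := by
      rw [hc, mul_comm]
      exact Int.ediv_mul_le _ hN'.ne'
    refine Finset.mem_image.mpr ⟨(c - j, j / N), ?_, ?_⟩
    · refine Finset.mem_product.mpr ⟨Finset.mem_Ioc.mpr ⟨by dsimp only; linarith, by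
        dsimp only; linarith⟩, ?_⟩
      exact Finset.mem_range.mpr (Nat.div_lt_of_lt_mul hjN)
    · dsimp only
      have e1 : (-(c - (j : ℤ))) % N = ((j % N : ℕ) : ℤ) := by
        have e2 : -(c - (j : ℤ)) = (j : ℤ) + N * (-((B + (j : ℤ)) / N)) := by
          rw [hc]
          ring
        rw [e2, Int.add_mul_emod_self_left]
        exact (Int.natCast_mod j N).symm
      rw [e1, Int.toNat_natCast]
      exact Nat.mod_add_div j N
  refine (Finset.card_le_card hsub).trans (Finset.card_image_le.trans ?_)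
  rw [Finset.card_product, Int.card_Ioc, Finset.card_range]

/-- **Random offsets**: for two numbers at a small distance the integer parts are the same, for
most offsets. -/
theorem count (N q : ℕ) (hN : 0 < N) (a b : ℝ) :
    (((range (N * q)).filter fun j : ℕ => ⌊a + (j : ℝ) / N⌋ ≠ ⌊b + (j : ℝ) / N⌋).card : ℝ) ≤
      q * (N * |b - a| + 1) := by
  classical
  have hN0 : (0 : ℝ) < N := by exact_mod_cast hN
  wlog hab : a ≤ b generalizing a b with H
  · have h := H b a (le_of_lt (not_le.mp hab))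
    rw [abs_sub_comm] at h
    refine le_trans (le_of_eq ?_) h
    congr 2
    refine Finset.filter_congr fun j _ => ?_
    exact ne_comm
  have hfl : ∀ (x : ℝ) (j : ℕ), ⌊x + (j : ℝ) / N⌋ = (⌊N * x⌋ + (j : ℤ)) / N := by
    intro x j
    have e : x + (j : ℝ) / N = (N * x + (j : ℕ)) / N := by
      field_simp
    rw [e, Int.floor_div_natCast, Int.floor_add_natCast]
  have h1 : ((range (N * q)).filter fun j : ℕ => ⌊a + (j : ℝ) / N⌋ ≠ ⌊b + (j : ℝ) / N⌋) =
      ((range (N * q)).filter fun j : ℕ => (⌊N * a⌋ + (j : ℤ)) / N ≠ (⌊N * b⌋ + (j : ℤ)) / N) := by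
    refine Finset.filter_congr fun j _ => ?_
    rw [hfl a j, hfl b j]
  rw [h1]
  have hAB : ⌊N * a⌋ ≤ ⌊N * b⌋ := Int.floor_le_floor (mul_le_mul_of_nonneg_left hab hN0.le)
  have h2 := count_int N q hN ⌊N * a⌋ ⌊N * b⌋ hAB
  have h3 : ((⌊N * b⌋ - ⌊N * a⌋).toNat : ℝ) ≤ N * |b - a| + 1 := by
    have h4 : (((⌊N * b⌋ - ⌊N * a⌋).toNat : ℤ) : ℝ) = (⌊N * b⌋ : ℝ) - ⌊N * a⌋ := by
      rw [Int.toNat_of_nonneg (by linarith)]
      push_cast
      ring
    have h5 : ((⌊N * b⌋ - ⌊N * a⌋).toNat : ℝ) = (⌊N * b⌋ : ℝ) - ⌊N * a⌋ := by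
      rw [← h4]
      norm_cast
    rw [h5, abs_of_nonneg (by linarith)]
    have h6 := Int.floor_le ((N : ℝ) * b)
    have h7 := Int.lt_floor_add_one ((N : ℝ) * a)
    linarith
  calc ((((range (N * q)).filter fun j : ℕ => (⌊N * a⌋ + (j : ℤ)) / N ≠
        (⌊N * b⌋ + (j : ℤ)) / N).card : ℕ) : ℝ) ≤ (((⌊N * b⌋ - ⌊N * a⌋).toNat * q : ℕ) : ℝ) := by
        exact_mod_cast h2
    _ = q * ((⌊N * b⌋ - ⌊N * a⌋).toNat : ℝ) := by
        push_cast
        ring
    _ ≤ q * (N * |b - a| + 1) := mul_le_mul_of_nonneg_left h3 (Nat.cast_nonneg _)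

/-- The cell of side `2 ^ (-s)` of a point, for the grid moved by the offset `σ / M`. -/
noncomputable def cell {k M : ℕ} (s : ℕ) (σ : Fin M) (y : Fin k → ℝ) : Fin k → ℤ :=
  fun i => ⌊(2 : ℝ) ^ s * (y i + ((σ : ℕ) : ℝ) / M)⌋

/-- The grids are nested. -/
lemma cell_div {k M : ℕ} (s s' : ℕ) (σ : Fin M) (y : Fin k → ℝ) (i : Fin k) :
    cell s σ y i = cell (s + s') σ y i / 2 ^ s' := by
  unfold cell
  have e : (2 : ℝ) ^ s * (y i + ((σ : ℕ) : ℝ) / M) =
      ((2 : ℝ) ^ (s + s') * (y i + ((σ : ℕ) : ℝ) / M)) / ((2 ^ s' : ℕ) : ℝ) := by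
    push_cast
    rw [pow_add]
    field_simp
  rw [e, Int.floor_div_natCast]
  push_cast
  rfl

open Classical in
/-- One coordinate. -/
lemma prob_one {Ω : Type} [Fintype Ω] {p : Ω → ℝ} (hp : IsLaw p) (N q : ℕ) (hN : 0 < N)
    (hq : 0 < q) (a b : Ω → ℝ) (G : Ω → Prop) (r : ℝ) (hr : 0 ≤ r)
    (h : ∀ ω, p ω ≠ 0 → G ω → |a ω - b ω| ≤ r) :
    (∑ w : Ω × Fin (N * q), if G w.1 ∧ ⌊a w.1 + ((w.2 : ℕ) : ℝ) / N⌋ ≠
      ⌊b w.1 + ((w.2 : ℕ) : ℝ) / N⌋ then pr2 p (un (Fin (N * q))) w else 0) ≤ r + 1 / N := by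
  have hN0 : (0 : ℝ) < N := by exact_mod_cast hN
  have hq0 : (0 : ℝ) < q := by exact_mod_cast hq
  rw [Fintype.sum_prod_type]
  have key : ∀ ω, (∑ σ : Fin (N * q), if G ω ∧ ⌊a ω + ((σ : ℕ) : ℝ) / N⌋ ≠
      ⌊b ω + ((σ : ℕ) : ℝ) / N⌋ then pr2 p (un (Fin (N * q))) (ω, σ) else 0) ≤
      p ω * (r + 1 / N) := by
    intro ω
    have hr1 : 0 ≤ r + 1 / N := by positivity
    by_cases hω : p ω = 0
    · refine le_of_eq ?_
      rw [hω, zero_mul]
      refine Finset.sum_eq_zero fun σ _ => ?_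
      unfold pr2
      simp [hω]
    by_cases hG : G ω
    · have h1 : (∑ σ : Fin (N * q), if G ω ∧ ⌊a ω + ((σ : ℕ) : ℝ) / N⌋ ≠
          ⌊b ω + ((σ : ℕ) : ℝ) / N⌋ then pr2 p (un (Fin (N * q))) (ω, σ) else 0) =
          (((range (N * q)).filter fun j : ℕ => ⌊b ω + (j : ℝ) / N⌋ ≠ ⌊a ω + (j : ℝ) / N⌋).card : ℝ) *
            (p ω * ((N * q : ℕ) : ℝ)⁻¹) := by
        have h2 : ∀ σ : Fin (N * q), (if G ω ∧ ⌊a ω + ((σ : ℕ) : ℝ) / N⌋ ≠
            ⌊b ω + ((σ : ℕ) : ℝ) / N⌋ then pr2 p (un (Fin (N * q))) (ω, σ) else 0) =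
            (fun j : ℕ => if ⌊b ω + (j : ℝ) / N⌋ ≠ ⌊a ω + (j : ℝ) / N⌋ then
              (p ω * ((N * q : ℕ) : ℝ)⁻¹) else 0) (σ : ℕ) := by
          intro σ
          unfold pr2 un
          simp only [hG, true_and, Fintype.card_fin]
          by_cases h3 : ⌊a ω + ((σ : ℕ) : ℝ) / N⌋ = ⌊b ω + ((σ : ℕ) : ℝ) / N⌋
          · rw [if_neg (by simpa using h3), if_neg (by simpa using h3.symm)]
          · rw [if_pos h3, if_pos (Ne.symm h3)]
        rw [Finset.sum_congr rfl fun σ _ => h2 σ, Fin.sum_univ_eq_sum_range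
          (fun j : ℕ => if ⌊b ω + (j : ℝ) / N⌋ ≠ ⌊a ω + (j : ℝ) / N⌋ then
              (p ω * ((N * q : ℕ) : ℝ)⁻¹) else 0) (N * q), ← Finset.sum_filter,
          Finset.sum_const, nsmul_eq_mul]
      rw [h1]
      have h4 := count N q hN (b ω) (a ω)
      have h5 : (q : ℝ) * (N * |a ω - b ω| + 1) ≤ q * (N * r + 1) := by
        have := h ω hω hG
        have h6 : N * |a ω - b ω| ≤ N * r := mul_le_mul_of_nonneg_left this hN0.le
        exact mul_le_mul_of_nonneg_left (by linarith) hq0.le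
      have h7 : 0 ≤ p ω * ((N * q : ℕ) : ℝ)⁻¹ := mul_nonneg (hp.nonneg ω) (by positivity)
      refine (mul_le_mul_of_nonneg_right (h4.trans h5) h7).trans (le_of_eq ?_)
      push_cast
      field_simp
    · refine le_trans (le_of_eq ?_) (mul_nonneg (hp.nonneg ω) hr1)
      refine Finset.sum_eq_zero fun σ _ => ?_
      rw [if_neg]
      exact fun h => hG h.1
  refine (Finset.sum_le_sum fun ω _ => key ω).trans (le_of_eq ?_)
  rw [← Finset.sum_mul, hp.sum_one, one_mul]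

/-- **Random offsets, cells.** The cells of two points which are close to each other on the event
`G` are the same, outside a small probability. -/
theorem cells {Ω : Type} [Fintype Ω] {p : Ω → ℝ} (hp : IsLaw p) {k M : ℕ} (s N : ℕ) (hN : 0 < N)
    (hM : M = N * 2 ^ s) (y y' : Ω → Fin k → ℝ) (G : Ω → Prop) (r : ℝ) (hr : 0 ≤ r)
    (h : ∀ ω, p ω ≠ 0 → G ω → ∀ i, |y ω i - y' ω i| ≤ r) :
    law (pr2 p (un (Fin M))) (fun w => G w.1 ∧ cell s w.2 (y w.1) ≠ cell s w.2 (y' w.1)) True ≤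
      k * (2 ^ s * r + 1 / N) := by
  classical
  subst hM
  have hs : (0 : ℝ) < 2 ^ s := by positivity
  have hN0 : (0 : ℝ) < N := by exact_mod_cast hN
  have hnn : ∀ w : Ω × Fin (N * 2 ^ s), 0 ≤ pr2 p (un (Fin (N * 2 ^ s))) w := by
    intro w
    unfold pr2 un
    exact mul_nonneg (hp.nonneg _) (by positivity)
  have hcell : ∀ (σ : Fin (N * 2 ^ s)) (z : Fin k → ℝ) (i : Fin k),
      cell s σ z i = ⌊2 ^ s * z i + ((σ : ℕ) : ℝ) / N⌋ := by
    intro σ z i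
    unfold cell
    congr 1
    push_cast
    field_simp
  have h1 : law (pr2 p (un (Fin (N * 2 ^ s))))
      (fun w => G w.1 ∧ cell s w.2 (y w.1) ≠ cell s w.2 (y' w.1)) True ≤
      ∑ i : Fin k, ∑ w : Ω × Fin (N * 2 ^ s),
        if G w.1 ∧ ⌊2 ^ s * y w.1 i + ((w.2 : ℕ) : ℝ) / N⌋ ≠
          ⌊2 ^ s * y' w.1 i + ((w.2 : ℕ) : ℝ) / N⌋ then pr2 p (un (Fin (N * 2 ^ s))) w else 0 := by
    rw [Finset.sum_comm]
    unfold law
    refine Finset.sum_le_sum fun w _ => ?_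
    by_cases hw : G w.1 ∧ cell s w.2 (y w.1) ≠ cell s w.2 (y' w.1)
    · rw [if_pos (eq_true hw)]
      obtain ⟨hG, hne⟩ := hw
      obtain ⟨i, hi⟩ : ∃ i, cell s w.2 (y w.1) i ≠ cell s w.2 (y' w.1) i := by
        by_contra hcon
        push Not at hcon
        exact hne (funext hcon)
      rw [hcell, hcell] at hi
      refine le_trans (le_of_eq ?_) (Finset.single_le_sum (f := fun i =>
        if G w.1 ∧ ⌊2 ^ s * y w.1 i + ((w.2 : ℕ) : ℝ) / N⌋ ≠
          ⌊2 ^ s * y' w.1 i + ((w.2 : ℕ) : ℝ) / N⌋ then pr2 p (un (Fin (N * 2 ^ s))) w else 0)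
        (fun i _ => ?_) (Finset.mem_univ i))
      · rw [if_pos ⟨hG, hi⟩]
      · split_ifs
        · exact hnn w
        · exact le_rfl
    · rw [if_neg (fun h' => hw (of_eq_true h'))]
      refine Finset.sum_nonneg fun i _ => ?_
      split_ifs
      · exact hnn w
      · exact le_rfl
  refine h1.trans ?_
  have h2 : ∀ i : Fin k, (∑ w : Ω × Fin (N * 2 ^ s),
        if G w.1 ∧ ⌊2 ^ s * y w.1 i + ((w.2 : ℕ) : ℝ) / N⌋ ≠
          ⌊2 ^ s * y' w.1 i + ((w.2 : ℕ) : ℝ) / N⌋ then pr2 p (un (Fin (N * 2 ^ s))) w else 0) ≤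
      2 ^ s * r + 1 / N := by
    intro i
    refine prob_one hp N (2 ^ s) hN (by positivity) (fun ω => 2 ^ s * y ω i)
      (fun ω => 2 ^ s * y' ω i) G (2 ^ s * r) (by positivity) ?_
    intro ω hω hG
    rw [← mul_sub, abs_mul, abs_of_pos hs]
    exact mul_le_mul_of_nonneg_left (h ω hω hG i) hs.le
  refine (Finset.sum_le_sum fun i _ => h2 i).trans (le_of_eq ?_)
  rw [Finset.sum_const, Finset.card_univ, Fintype.card_fin, nsmul_eq_mul]

/-- Conditioning on the offset changes nothing. -/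
lemma CH_off {Ω S U : Type} [Fintype Ω] {p : Ω → ℝ} (hp : IsLaw p) (M : ℕ) [NeZero M]
    (X : Ω → S) (Y : Ω → U) :
    CH (pr2 p (un (Fin M))) (fun w => X w.1) (fun w => (w.2, Y w.1)) = CH p X Y := by
  have h1 := CH_pr2_fst hp (un_law (Fin M)) X Y (fun σ => σ)
  rw [← h1]
  refine CH_congr (pr2_law hp (un_law (Fin M))).nonneg ?_ ?_ ?_ ?_ <;>
  · intro ω ω' _ _ h
    simp only [Prod.mk.injEq] at h ⊢
    tauto

end OFF

variable {m J : ℕ}

/-- The family with a random offset as side information. -/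
noncomputable def Fam.off (F : Fam m J) (M : ℕ) [NeZero M] : Fam m J :=
  (F.ext (pr2 F.p (un (Fin M))) (pr2_law F.isLaw (un_law (Fin M))) Prod.fst).cnd (fun w => w.2)

/-- Conditional entropies in the family with an offset. -/
theorem Fam.off_CH (F : Fam m J) (M : ℕ) [NeZero M] {S U : Type} (X : F.Ω → S) (Y : F.Ω → U) :
    CH (F.off M).p (fun w => X w.1) (fun w => (w.2, Y w.1)) = CH F.p X Y :=
  OFF.CH_off F.isLaw M X Y

/-- The deficit of the time does not change. -/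
theorem Fam.off_Tm (F : Fam m J) (M : ℕ) [NeZero M] (e : ℝ) : (F.off M).Tm e ↔ F.Tm e := by
  have h1 : CH (F.off M).p (F.off M).T (fun ω => ((F.off M).l ω, (F.off M).Z ω)) =
      CH F.p F.T (fun ω => (F.l ω, F.Z ω)) := by
    rw [← F.off_CH M]
    refine CH_congr (F.off M).isLaw.nonneg ?_ ?_ ?_ ?_ <;>
    · intro ω ω' _ _ h
      simp only [Fam.off, Fam.cnd, Fam.ext, Fam.l, Prod.mk.injEq] at h ⊢
      tauto
  unfold Fam.Tm
  rw [h1]

/-- Positions and directions. -/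
theorem Fam.off_CHX (F : Fam m J) (M : ℕ) [NeZero M] (j : ℕ) :
    CH (F.off M).p ((F.off M).X j) (F.off M).W = CH F.p (F.X j) F.W := by
  rw [← F.off_CH M]
  refine CH_congr (F.off M).isLaw.nonneg ?_ ?_ ?_ ?_ <;>
  · intro ω ω' _ _ h
    simp only [Fam.off, Fam.cnd, Fam.ext, Fam.W, Fam.X, Prod.mk.injEq] at h ⊢
    tauto

/-- Positions and directions. -/
theorem Fam.off_CHD (F : Fam m J) (M : ℕ) [NeZero M] (j : ℕ) :
    CH (F.off M).p ((F.off M).D j) (F.off M).Z = CH F.p (F.D j) F.Z := F.off_CH M (F.D j) F.Z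

/-- The functional does not change. -/
theorem Fam.off_Ga (F : Fam m J) (M : ℕ) [NeZero M] (a : ℝ) : (F.off M).Ga a = F.Ga a := by
  unfold Fam.Ga
  rw [F.off_CHX M, F.off_CHD M]

/-- The violation does not change. -/
theorem Fam.off_V (F : Fam m J) (M : ℕ) [NeZero M] (j : ℕ) : (F.off M).V j = F.V j := by
  unfold Fam.V
  rw [F.off_CHX M, F.off_CHD M]

/-- Maximality does not change. -/
theorem Fam.off_Mx (F : Fam m J) (M : ℕ) [NeZero M] (a R τ : ℝ) :
    (F.off M).Mx a R τ ↔ F.Mx a R τ := by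
  unfold Fam.Mx
  rw [F.off_Tm M, F.off_Ga M]

/-- **Row OFF.** Cells of moved points in the family with a random offset. -/
theorem Fam.off_cells (F : Fam m J) {k : ℕ} (M : ℕ) [NeZero M] (s N : ℕ) (hN : 0 < N)
    (hM : M = N * 2 ^ s) (y y' : F.Ω → Fin k → ℝ) (G : F.Ω → Prop) (r : ℝ) (hr : 0 ≤ r)
    (h : ∀ ω, F.p ω ≠ 0 → G ω → ∀ i, |y ω i - y' ω i| ≤ r) :
    law (F.off M).p (fun w => G w.1 ∧ OFF.cell s w.2 (y w.1) ≠ OFF.cell s w.2 (y' w.1)) True ≤
      k * (2 ^ s * r + 1 / N) :=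
  OFF.cells F.isLaw s N hN hM y y' G r hr h

/-- **Row OFF, linear coordinates** which depend on a label (for instance the sheared coordinate
`x_N - z x_W`): `c ω` is the matrix of the coordinates. -/
theorem Fam.off_cells_lin (F : Fam m J) {k n : ℕ} (M : ℕ) [NeZero M] (s N : ℕ) (hN : 0 < N)
    (hM : M = N * 2 ^ s) (x x' : F.Ω → Fin n → ℝ) (c : F.Ω → Fin k → Fin n → ℝ) (G : F.Ω → Prop)
    (A r : ℝ) (hA : 0 ≤ A) (hr : 0 ≤ r)
    (hc : ∀ ω, F.p ω ≠ 0 → G ω → ∀ i, ∑ j, |c ω i j| ≤ A)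
    (h : ∀ ω, F.p ω ≠ 0 → G ω → ∀ j, |x ω j - x' ω j| ≤ r) :
    law (F.off M).p (fun w => G w.1 ∧
      OFF.cell s w.2 (fun i => ∑ j, c w.1 i j * x w.1 j) ≠
      OFF.cell s w.2 (fun i => ∑ j, c w.1 i j * x' w.1 j)) True ≤
      k * (2 ^ s * (A * r) + 1 / N) := by
  refine F.off_cells M s N hN hM (fun ω i => ∑ j, c ω i j * x ω j)
    (fun ω i => ∑ j, c ω i j * x' ω j) G (A * r) (by positivity) ?_
  intro ω hω hG i
  rw [← Finset.sum_sub_distrib]
  calc |∑ j, (c ω i j * x ω j - c ω i j * x' ω j)| ≤ ∑ j, |c ω i j * x ω j - c ω i j * x' ω j| :=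
        Finset.abs_sum_le_sum_abs _ _
    _ ≤ ∑ j, |c ω i j| * r := by
        refine Finset.sum_le_sum fun j _ => ?_
        rw [← mul_sub, abs_mul]
        exact mul_le_mul_of_nonneg_left (h ω hω hG j) (abs_nonneg _)
    _ = (∑ j, |c ω i j|) * r := by rw [Finset.sum_mul]
    _ ≤ A * r := mul_le_mul_of_nonneg_right (hc ω hω hG i) hr

end Pool.KA
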