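import Pool.Agent.H56.KAL.Stmts2

/-!
# Counting jets
-/

set_option autoImplicit false

namespace Pool.KAL

open Finset Real

namespace JET

/-- Exponents of degree at most `D`. -/
noncomputable def B (σ : Type) [Fintype σ] [DecidableEq σ] (D : ℕ) : Finset (σ →₀ ℕ) :=
  (range (D + 1)).biUnion fun e => (univ : Finset σ).finsuppAntidiag e

lemma mem_B {σ : Type} [Fintype σ] [DecidableEq σ] {D : ℕ} {f : σ →₀ ℕ} :
    f ∈ B σ D ↔ f.degree ≤ D := by
  unfold B
  rw [Finset.mem_biUnion]
  constructor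
  · rintro ⟨e, he, hf⟩
    rw [Finset.mem_finsuppAntidiag] at hf
    rw [Finsupp.degree_eq_sum, hf.1]
    exact Nat.lt_succ_iff.mp (Finset.mem_range.mp he)
  · intro h
    refine ⟨f.degree, Finset.mem_range.mpr (Nat.lt_succ_iff.mpr h), ?_⟩
    rw [Finset.mem_finsuppAntidiag]
    exact ⟨(Finsupp.degree_eq_sum f).symm, Finset.subset_univ _⟩

lemma card_B (σ : Type) [Fintype σ] [DecidableEq σ] (D : ℕ) :
    (B σ D).card = (D + Fintype.card σ).choose (Fintype.card σ) := by
  unfold B
  rw [Finset.card_biUnion]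
  · simp_rw [Finset.card_finsuppAntidiag_nat_eq_choose, Finset.card_univ]
    rcases Nat.eq_zero_or_pos (Fintype.card σ) with h | h
    · rw [h]
      have h2 : ∀ e ∈ range (D + 1), (0 + e - 1).choose e = if e = 0 then 1 else 0 := by
        intro e _
        rcases Nat.eq_zero_or_pos e with he | he
        · subst he
          simp
        · rw [if_neg he.ne', Nat.choose_eq_zero_of_lt]
          omega
      rw [Finset.sum_congr rfl h2]
      simp
    · obtain ⟨k, hk⟩ := Nat.exists_eq_add_of_le' h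
      rw [hk]
      have h2 : ∀ e ∈ range (D + 1), (k + 1 + e - 1).choose e = (e + k).choose k := by
        intro e _
        have h3 : k + 1 + e - 1 = e + k := by omega
        rw [h3]
        exact Nat.choose_symm_add
      rw [Finset.sum_congr rfl h2, Nat.sum_range_add_choose]
      rfl
  · intro a _ b _ hab
    rw [Function.onFun, Finset.disjoint_left]
    intro f hf hf'
    rw [Finset.mem_finsuppAntidiag] at hf hf'
    exact hab (hf.1.symm.trans hf'.1)

end JET

/-- **Counting jets.** -/
theorem jet_thm : JETStmt := by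
  intro n D j hlt G y₀
  classical
  set g : Option (Fin n) → MvPolynomial (Fin n) ℝ := fun o : Option (Fin n) =>
          o.elim (MvPolynomial.bind₁ (fun i => MvPolynomial.X i + MvPolynomial.C (y₀ i)) G)
            (fun i => MvPolynomial.X i + MvPolynomial.C (y₀ i)) with hg
  let L₁ : ((JET.B (Option (Fin n)) D) → ℝ) →ₗ[ℝ] MvPolynomial (Option (Fin n)) ℝ :=
    Fintype.linearCombination ℝ (fun β : JET.B (Option (Fin n)) D =>
      MvPolynomial.monomial β.1 (1 : ℝ))
  let L₂ : MvPolynomial (Option (Fin n)) ℝ →ₗ[ℝ] MvPolynomial (Fin n) ℝ :=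
    (MvPolynomial.bind₁ g).toLinearMap
  let L₃ : MvPolynomial (Fin n) ℝ →ₗ[ℝ] ((JET.B (Fin n) j) → ℝ) :=
    LinearMap.pi (fun α : JET.B (Fin n) j => MvPolynomial.lcoeff ℝ α.1)
  have hfr : Module.finrank ℝ ((JET.B (Fin n) j) → ℝ) <
      Module.finrank ℝ ((JET.B (Option (Fin n)) D) → ℝ) := by
    rw [Module.finrank_fintype_fun_eq_card, Module.finrank_fintype_fun_eq_card,
      Fintype.card_coe, Fintype.card_coe, JET.card_B, JET.card_B, Fintype.card_option,
      Fintype.card_fin]
    exact hlt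
  have hker : LinearMap.ker (L₃ ∘ₗ L₂ ∘ₗ L₁) ≠ ⊥ := LinearMap.ker_ne_bot_of_finrank_lt hfr
  obtain ⟨c, hc, hc0⟩ := (Submodule.ne_bot_iff _).mp hker
  have hL₁ : L₁ c = ∑ β : JET.B (Option (Fin n)) D,
      c β • MvPolynomial.monomial β.1 (1 : ℝ) := Fintype.linearCombination_apply _ _ _
  refine ⟨L₁ c, ?_, ?_, ?_⟩
  · intro h0
    apply hc0
    funext β
    have h1 : MvPolynomial.coeff β.1 (L₁ c) = c β := by
      rw [hL₁, MvPolynomial.coeff_sum, Finset.sum_eq_single β]
      · rw [MvPolynomial.coeff_smul, MvPolynomial.coeff_monomial, if_pos rfl]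
        simp
      · intro γ _ hγ
        rw [MvPolynomial.coeff_smul, MvPolynomial.coeff_monomial,
          if_neg (fun h => hγ (Subtype.ext h))]
        simp
      · intro h
        exact absurd (Finset.mem_univ β) h
    rw [h0] at h1
    rw [← h1]
    simp
  · rw [← MvPolynomial.mem_restrictTotalDegree, hL₁]
    refine Submodule.sum_mem _ fun β _ => Submodule.smul_mem _ _ ?_
    rw [MvPolynomial.mem_restrictTotalDegree]
    refine (MvPolynomial.totalDegree_monomial_le _ _).trans ?_
    exact JET.mem_B.mp β.2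
  · intro α hα
    have h1 : (L₃ ∘ₗ L₂ ∘ₗ L₁) c = 0 := hc
    exact congrFun h1 (⟨α, JET.mem_B.mpr hα⟩ : JET.B (Fin n) j)

end Pool.KAL
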