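import Pool.Agent.H99.KAL.CAU

/-!
# The Cauchy equation on a box in several dimensions, for almost all pairs
-/

set_option autoImplicit false

namespace Pool.KAL

open Finset Real

/-- The box `[a,b)^k`. -/
def bx (k a b : ℕ) : Finset (Fin k → ℕ) := Fintype.piFinset fun _ => Ico a b

/-- **Cauchy equation on a box, almost all pairs, dimension `k`.** The increments of `β` depend, up
to `ρ` and for all but a fraction `ε` of the pairs, only on the step: then they are linear in the
step. -/
def CAKStmt : Prop :=
  ∀ k : ℕ, ∃ ε₀ > 0, ∃ C : ℝ, 1 ≤ C ∧ ∀ (N M : ℕ) (β F : (Fin k → ℕ) → ℝ) (ρ ε : ℝ),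
    0 < M → 2 * M ≤ N → 0 ≤ ρ → 0 ≤ ε → ε ≤ ε₀ →
    ((((bx k 0 N) ×ˢ (bx k 0 M)).filter fun a => ρ < |β (a.1 + a.2) - β a.1 - F a.2|).card : ℝ) ≤
      ε * ((N : ℝ) ^ k * (M : ℝ) ^ k) →
    ∃ B : Fin k → ℝ,
      (((bx k 0 M).filter fun h => C * ρ < |F h - ∑ i, B i * h i|).card : ℝ) ≤
        C * ε * (M : ℝ) ^ k

namespace CAK

variable {k : ℕ}

lemma card_bx (a b : ℕ) : (bx k a b).card = (b - a) ^ k := by
  unfold bx
  rw [Fintype.card_piFinset]
  simp

lemma mem_bx {a b : ℕ} {y : Fin k → ℕ} : y ∈ bx k a b ↔ ∀ i, a ≤ y i ∧ y i < b := by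
  unfold bx
  simp [Fintype.mem_piFinset]

section

variable (N K : ℕ) (β : (Fin k → ℕ) → ℝ)

/-- Number of exceptions: `β (y + a) - β y` is not within `r` of `v`. -/
noncomputable def E (a : Fin k → ℕ) (v r : ℝ) : ℕ :=
  ((bx k K N).filter fun y => r < |β (y + a) - β y - v|).card

variable {N K β}

/-- Comparison of the increments. -/
lemma comb {L : ℕ} {a b : Fin k → ℕ} {v w u r r' r'' : ℝ} (ha : ∀ i, a i ≤ L)
    (h : E N K β a v r + E N K β b w r' + E N K β (a + b) u r'' < (N - L - K) ^ k) :
    |u - v - w| ≤ r + r' + r'' := by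
  have hinj : ((bx k K (N - L)).filter fun y => r' < |β (y + a + b) - β (y + a) - w|).card ≤
      E N K β b w r' := by
    unfold E
    refine Finset.card_le_card_of_injOn (fun y => y + a) ?_ ?_
    · intro y hy
      have hy' := Finset.mem_filter.mp hy
      have h1 := mem_bx.mp hy'.1
      refine Finset.mem_filter.mpr ⟨mem_bx.mpr fun i => ?_, hy'.2⟩
      have h2 := h1 i
      have h3 := ha i
      simp only [Pi.add_apply]
      omega
    · intro y _ y' _ e
      exact add_right_cancel e
  have h1 : ((bx k K (N - L)).filter fun y => r < |β (y + a) - β y - v|).card ≤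
      E N K β a v r := by
    unfold E
    refine Finset.card_le_card ?_
    intro y hy
    have hy' := Finset.mem_filter.mp hy
    have h1 := mem_bx.mp hy'.1
    exact Finset.mem_filter.mpr ⟨mem_bx.mpr fun i => ⟨(h1 i).1, by have := (h1 i).2; omega⟩,
      hy'.2⟩
  have h2 : ((bx k K (N - L)).filter fun y => r'' < |β (y + (a + b)) - β y - u|).card ≤
      E N K β (a + b) u r'' := by
    unfold E
    refine Finset.card_le_card ?_
    intro y hy
    have hy' := Finset.mem_filter.mp hy
    have h1 := mem_bx.mp hy'.1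
    exact Finset.mem_filter.mpr ⟨mem_bx.mpr fun i => ⟨(h1 i).1, by have := (h1 i).2; omega⟩,
      hy'.2⟩
  by_contra hcon
  push Not at hcon
  have hcov : bx k K (N - L) ⊆
      (((bx k K (N - L)).filter fun y => r < |β (y + a) - β y - v|) ∪
      ((bx k K (N - L)).filter fun y => r' < |β (y + a + b) - β (y + a) - w|)) ∪
      ((bx k K (N - L)).filter fun y => r'' < |β (y + (a + b)) - β y - u|) := by
    intro y hy
    by_contra hn
    simp only [Finset.mem_union, Finset.mem_filter, hy, true_and, not_or, not_lt] at hn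
    obtain ⟨⟨n1, n2⟩, n3⟩ := hn
    rw [← add_assoc] at n3
    have : |u - v - w| ≤ r + r' + r'' := by
      rw [abs_le] at n1 n2 n3 ⊢
      constructor <;> linarith [n1.1, n1.2, n2.1, n2.2, n3.1, n3.2]
    linarith
  have hc := Finset.card_le_card hcov
  have hu1 := Finset.card_union_le
    (((bx k K (N - L)).filter fun y => r < |β (y + a) - β y - v|) ∪
      ((bx k K (N - L)).filter fun y => r' < |β (y + a + b) - β (y + a) - w|))
    ((bx k K (N - L)).filter fun y => r'' < |β (y + (a + b)) - β y - u|)
  have hu2 := Finset.card_union_le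
    ((bx k K (N - L)).filter fun y => r < |β (y + a) - β y - v|)
      ((bx k K (N - L)).filter fun y => r' < |β (y + a + b) - β (y + a) - w|)
  rw [card_bx] at hc
  omega

end

/-- Nearly additive functions on a box are nearly linear. -/
lemma lin {L : ℕ} {f : (Fin k → ℕ) → ℝ} {δ : ℝ}
    (h : ∀ a b, (∀ i, a i + b i ≤ L) → |f (a + b) - f a - f b| ≤ δ) :
    ∃ B : Fin k → ℝ, ∀ x, (∀ i, x i ≤ L) → |f x - ∑ i, B i * x i| ≤ (3 * k + 1) * δ := by
  classical
  have h0 : |f 0| ≤ δ := by
    have := h 0 0 (fun i => by simp)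
    have e : f (0 + 0) - f 0 - f 0 = - f 0 := by
      rw [add_zero]
      ring
    rw [e, abs_neg] at this
    exact this
  have hδ : 0 ≤ δ := (abs_nonneg _).trans h0
  -- the axes
  have hax : ∀ i : Fin k, ∃ B : ℝ, ∀ t, t ≤ L → |f (Pi.single i t) - B * t| ≤ 2 * δ := by
    intro i
    have hadd : ∀ a b, a + b ≤ L → |f (Pi.single i (a + b)) - f (Pi.single i a) -
        f (Pi.single i b)| ≤ δ := by
      intro a b hab
      have := h (Pi.single i a) (Pi.single i b) (fun j => by
        rcases eq_or_ne j i with e | e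
        · subst e
          simpa using hab
        · simp [Pi.single_eq_of_ne e])
      rw [← Pi.single_add] at this
      exact this
    rcases Nat.eq_zero_or_pos L with hL | hL
    · refine ⟨0, fun t ht => ?_⟩
      have ht0 : t = 0 := by omega
      subst ht0
      rw [Pi.single_zero, zero_mul, sub_zero]
      linarith
    · refine ⟨f (Pi.single i L) / L, fun t ht => ?_⟩
      exact CAU.skof hL (f := fun t => f (Pi.single i t)) hadd ht
  choose B hB using hax
  refine ⟨B, fun x hx => ?_⟩
  have key : ∀ S : Finset (Fin k),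
      |f (fun i => if i ∈ S then x i else 0) - ∑ i ∈ S, B i * x i| ≤ (3 * S.card + 1) * δ := by
    intro S
    induction S using Finset.induction_on with
    | empty =>
      have e : (fun i : Fin k => if i ∈ (∅ : Finset (Fin k)) then x i else 0) = 0 := by
        funext i
        simp
      rw [e]
      simpa using h0
    | insert j S hj ih =>
      have e : (fun i : Fin k => if i ∈ insert j S then x i else 0) =
          (fun i => if i ∈ S then x i else 0) + Pi.single j (x j) := by
        funext i
        rcases eq_or_ne i j with e1 | e1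
        · subst e1
          simp [hj]
        · simp [e1]
      have h1 := h (fun i => if i ∈ S then x i else 0) (Pi.single j (x j)) (fun i => by
        rcases eq_or_ne i j with e1 | e1
        · subst e1
          simpa [hj] using hx i
        · by_cases h2 : i ∈ S
          · simpa [e1, h2] using hx i
          · simp [e1, h2])
      have h2 := hB j (x j) (hx j)
      rw [e, Finset.sum_insert hj, Finset.card_insert_of_notMem hj]
      push_cast
      rw [abs_le] at ih h1 h2 ⊢
      constructor <;> nlinarith [ih.1, ih.2, h1.1, h1.2, h2.1, h2.2]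
  have := key Finset.univ
  simpa using this

end CAK

open CAK in
/-- **Cauchy equation on a box, almost all pairs, dimension `k`.** -/
theorem cak_thm : CAKStmt := by
  classical
  intro k
  set q : ℝ := 2 ^ k with hq
  have hq1 : 1 ≤ q := one_le_pow₀ (by norm_num)
  have hq0 : 0 < q := by linarith
  have hk0 : (0 : ℝ) ≤ k := Nat.cast_nonneg _
  refine ⟨1 / (32 * q ^ 2), by positivity, 8 * q + 36 * k + 17, by nlinarith, ?_⟩
  intro N M β F ρ ε hM hMN hρ hε hε₀ hcount
  have hN : 0 < N := by omega
  have hN0 : (0 : ℝ) < (N : ℝ) ^ k := by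
    have : (0 : ℝ) < N := by exact_mod_cast hN
    positivity
  have hM0 : (0 : ℝ) < (M : ℝ) ^ k := by
    have : (0 : ℝ) < M := by exact_mod_cast hM
    positivity
  set T : ℝ := (N : ℝ) ^ k / (8 * q) with hT
  have hT0 : 0 < T := by positivity
  set b : (Fin k → ℕ) → ℕ :=
    fun h => ((bx k 0 N).filter fun y => ρ < |β (y + h) - β y - F h|).card with hb
  have hsum : (∑ h ∈ bx k 0 M, (b h : ℝ)) ≤ ε * ((N : ℝ) ^ k * (M : ℝ) ^ k) := by
    refine le_trans (le_of_eq ?_) hcount
    rw [← Nat.cast_sum]
    congr 1
    rw [Finset.card_filter, Finset.sum_product_right]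
    refine Finset.sum_congr rfl fun h _ => ?_
    simp only [hb, Finset.card_filter]
  -- exceptional steps
  have hG : (((bx k 0 M).filter fun h => T < (b h : ℝ)).card : ℝ) ≤ 8 * q * ε * (M : ℝ) ^ k := by
    have h1 : (((bx k 0 M).filter fun h => T < (b h : ℝ)).card : ℝ) * T ≤
        ε * ((N : ℝ) ^ k * (M : ℝ) ^ k) := by
      refine le_trans ?_ hsum
      rw [← nsmul_eq_mul, ← Finset.sum_const]
      refine le_trans (Finset.sum_le_sum (fun h hh => (Finset.mem_filter.mp hh).2.le)) ?_
      exact Finset.sum_le_sum_of_subset_of_nonneg (Finset.filter_subset _ _)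
        (fun _ _ _ => Nat.cast_nonneg _)
    have h2 : 8 * q * T = (N : ℝ) ^ k := by
      rw [hT]
      field_simp
    have h3 : (((bx k 0 M).filter fun h => T < (b h : ℝ)).card : ℝ) * (N : ℝ) ^ k ≤
        8 * q * ε * (M : ℝ) ^ k * (N : ℝ) ^ k := by
      have h4 := mul_le_mul_of_nonneg_left h1 (show (0 : ℝ) ≤ 8 * q by positivity)
      calc (((bx k 0 M).filter fun h => T < (b h : ℝ)).card : ℝ) * (N : ℝ) ^ k
          = 8 * q * ((((bx k 0 M).filter fun h => T < (b h : ℝ)).card : ℝ) * T) := by
            rw [← h2]; ring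
        _ ≤ 8 * q * (ε * ((N : ℝ) ^ k * (M : ℝ) ^ k)) := h4
        _ = 8 * q * ε * (M : ℝ) ^ k * (N : ℝ) ^ k := by ring
    exact le_of_mul_le_mul_right h3 hN0
  set L : ℕ := M / 2 with hL
  set K : ℕ := M - L with hK
  have hKN : N - L - K = N - M := by omega
  -- good steps
  have hgood : ∀ h, (b h : ℝ) ≤ T → (E N K β h (F h) ρ : ℝ) ≤ T := by
    intro h hbh
    refine le_trans ?_ hbh
    have : E N K β h (F h) ρ ≤ b h := by
      unfold E
      rw [hb]
      refine Finset.card_le_card ?_
      intro y hy
      have hy' := Finset.mem_filter.mp hy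
      have h1 := mem_bx.mp hy'.1
      exact Finset.mem_filter.mpr ⟨mem_bx.mpr fun i => ⟨Nat.zero_le _, (h1 i).2⟩, hy'.2⟩
    exact_mod_cast this
  -- extension to all small steps
  have hext : ∀ a : Fin k → ℕ, (∀ i, a i ≤ L) → ∃ v, (E N K β a v (2 * ρ) : ℝ) ≤ 2 * T := by
    intro a ha
    have hs : ∃ s, s ∈ bx k 0 K ∧ (b s : ℝ) ≤ T ∧ (b (a + s) : ℝ) ≤ T := by
      by_contra hcon
      push Not at hcon
      have hcov : bx k 0 K ⊆
          ((bx k 0 M).filter fun h => T < (b h : ℝ)) ∪
          ((bx k 0 K).filter fun s => T < (b (a + s) : ℝ)) := by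
        intro s hs
        have hsK := mem_bx.mp hs
        rw [Finset.mem_union, Finset.mem_filter, Finset.mem_filter]
        by_cases h1 : (b s : ℝ) ≤ T
        · exact Or.inr ⟨hs, hcon s hs h1⟩
        · exact Or.inl ⟨mem_bx.mpr fun i => ⟨Nat.zero_le _, by have := (hsK i).2; omega⟩,
            not_le.mp h1⟩
      have h1 : ((bx k 0 K).filter fun s => T < (b (a + s) : ℝ)).card ≤
          ((bx k 0 M).filter fun h => T < (b h : ℝ)).card := by
        refine Finset.card_le_card_of_injOn (fun s => a + s) ?_ ?_
        · intro s hs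
          have hs' := Finset.mem_filter.mp hs
          have h2 := mem_bx.mp hs'.1
          refine Finset.mem_filter.mpr ⟨mem_bx.mpr fun i => ⟨Nat.zero_le _, ?_⟩, hs'.2⟩
          have h3 := (h2 i).2
          have h4 := ha i
          simp only [Pi.add_apply]
          omega
        · intro s _ s' _ e
          exact add_left_cancel e
      have h2 := (Finset.card_le_card hcov).trans (Finset.card_union_le _ _)
      rw [card_bx, Nat.sub_zero] at h2
      have h3 : (K : ℝ) ^ k ≤ 2 * (8 * q * ε * (M : ℝ) ^ k) := by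
        have h4 : (K : ℝ) ^ k ≤
            2 * (((bx k 0 M).filter fun h => T < (b h : ℝ)).card : ℝ) := by
          have : K ^ k ≤ 2 * ((bx k 0 M).filter fun h => T < (b h : ℝ)).card := by omega
          exact_mod_cast this
        linarith
      have h5 : (M : ℝ) ^ k ≤ q * (K : ℝ) ^ k := by
        rw [hq, ← mul_pow]
        have : (M : ℝ) ≤ 2 * K := by
          have : M ≤ 2 * K := by omega
          exact_mod_cast this
        exact pow_le_pow_left₀ (Nat.cast_nonneg _) this k
      have h6 : 16 * q ^ 2 * ε ≤ 1 / 2 := by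
        have := mul_le_mul_of_nonneg_left hε₀ (show (0 : ℝ) ≤ 16 * q ^ 2 by positivity)
        refine this.trans (le_of_eq ?_)
        field_simp
        norm_num
      have h7 : q * (K : ℝ) ^ k ≤ 16 * q ^ 2 * ε * (M : ℝ) ^ k := by
        have := mul_le_mul_of_nonneg_left h3 hq0.le
        nlinarith
      have h8 : 16 * q ^ 2 * ε * (M : ℝ) ^ k ≤ 1 / 2 * (M : ℝ) ^ k :=
        mul_le_mul_of_nonneg_right h6 hM0.le
      linarith
    obtain ⟨s, hsK, hs1, hs2⟩ := hs
    have hsK' := mem_bx.mp hsK
    refine ⟨F (a + s) - F s, ?_⟩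
    have h1 : E N K β a (F (a + s) - F s) (2 * ρ) ≤ b s + b (a + s) := by
      unfold E
      have hsub : ((bx k K N).filter fun y => 2 * ρ < |β (y + a) - β y - (F (a + s) - F s)|) ⊆
          ((bx k K N).filter fun y => ρ < |β (y - s + s) - β (y - s) - F s|) ∪
          ((bx k K N).filter fun y => ρ < |β (y - s + (a + s)) - β (y - s) - F (a + s)|) := by
        intro y hy
        have hy' := Finset.mem_filter.mp hy
        have h2 := mem_bx.mp hy'.1
        by_contra hn
        simp only [Finset.mem_union, Finset.mem_filter, hy'.1, true_and, not_or, not_lt] at hn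
        obtain ⟨n1, n2⟩ := hn
        have e1 : y - s + s = y := by
          funext i
          have h3 := (h2 i).1
          have h4 := (hsK' i).2
          simp only [Pi.add_apply, Pi.sub_apply]
          omega
        have e2 : y - s + (a + s) = y + a := by
          rw [add_comm a s, ← add_assoc, e1]
        rw [e1] at n1
        rw [e2] at n2
        have h3 : |β (y + a) - β y - (F (a + s) - F s)| ≤ 2 * ρ := by
          rw [abs_le] at n1 n2 ⊢
          constructor <;> linarith [n1.1, n1.2, n2.1, n2.2]
        linarith [hy'.2]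
      refine (Finset.card_le_card hsub).trans ((Finset.card_union_le _ _).trans ?_)
      have hi : ∀ c, ((bx k K N).filter fun y => ρ < |β (y - s + c) - β (y - s) - F c|).card ≤
          b c := by
        intro c
        rw [hb]
        refine Finset.card_le_card_of_injOn (fun y => y - s) ?_ ?_
        · intro y hy
          have hy' := Finset.mem_filter.mp hy
          have h2 := mem_bx.mp hy'.1
          refine Finset.mem_filter.mpr ⟨mem_bx.mpr fun i => ⟨Nat.zero_le _, ?_⟩, hy'.2⟩
          have h3 := (h2 i).2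
          simp only [Pi.sub_apply]
          omega
        · intro y hy y' hy' e
          have h2 := mem_bx.mp (Finset.mem_filter.mp hy).1
          have h3 := mem_bx.mp (Finset.mem_filter.mp hy').1
          funext i
          have e' := congrFun e i
          simp only [Pi.sub_apply] at e'
          have h4 := (h2 i).1
          have h5 := (h3 i).1
          have h6 := (hsK' i).2
          omega
      exact Nat.add_le_add (hi s) (hi (a + s))
    have h2 : (E N K β a (F (a + s) - F s) (2 * ρ) : ℝ) ≤ b s + b (a + s) := by exact_mod_cast h1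
    linarith
  choose! f hf using hext
  -- many points
  have hNM : 8 * T ≤ (((N - M) ^ k : ℕ) : ℝ) := by
    have h1 : (N : ℝ) ≤ 2 * ((N - M : ℕ) : ℝ) := by
      rw [Nat.cast_sub (by omega)]
      have : 2 * (M : ℝ) ≤ N := by exact_mod_cast hMN
      linarith
    have h2 : (N : ℝ) ^ k ≤ q * ((N - M : ℕ) : ℝ) ^ k := by
      rw [hq, ← mul_pow]
      exact pow_le_pow_left₀ (Nat.cast_nonneg _) h1 k
    have h3 : 8 * T = (N : ℝ) ^ k / q := by
      rw [hT]
      field_simp
    rw [h3, Nat.cast_pow, div_le_iff₀ hq0, mul_comm]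
    exact h2
  have hlt : ∀ i j l : ℕ, (i : ℝ) ≤ 2 * T → (j : ℝ) ≤ 2 * T → (l : ℝ) ≤ 2 * T →
      i + j + l < (N - L - K) ^ k := by
    intro i j l hi hj hl
    rw [hKN]
    have : ((i + j + l : ℕ) : ℝ) < (((N - M) ^ k : ℕ) : ℝ) := by
      push_cast
      push_cast at hNM
      linarith
    exact_mod_cast this
  have hadd : ∀ a c : Fin k → ℕ, (∀ i, a i + c i ≤ L) → |f (a + c) - f a - f c| ≤ 6 * ρ := by
    intro a c hac
    have h1 := comb (N := N) (K := K) (β := β) (L := L) (a := a) (b := c) (v := f a) (w := f c)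
      (u := f (a + c)) (r := 2 * ρ) (r' := 2 * ρ) (r'' := 2 * ρ)
      (fun i => by have := hac i; omega)
      (hlt _ _ _ (hf a fun i => by have := hac i; omega) (hf c fun i => by have := hac i; omega)
        (hf (a + c) fun i => by have := hac i; simpa using this))
    linarith
  obtain ⟨B, hB⟩ := lin hadd
  refine ⟨B, ?_⟩
  have hC : 8 * q * ε * (M : ℝ) ^ k ≤ (8 * q + 36 * k + 17) * ε * (M : ℝ) ^ k := by
    refine mul_le_mul_of_nonneg_right (mul_le_mul_of_nonneg_right ?_ hε) hM0.le
    linarith
  refine le_trans ?_ (hG.trans hC)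
  have hsub : ((bx k 0 M).filter fun h => (8 * q + 36 * k + 17) * ρ < |F h - ∑ i, B i * h i|) ⊆
      (bx k 0 M).filter fun h => T < (b h : ℝ) := by
    intro h hh
    have hh' := Finset.mem_filter.mp hh
    have hhM := mem_bx.mp hh'.1
    refine Finset.mem_filter.mpr ⟨hh'.1, ?_⟩
    by_contra hcon
    have hg := hgood h (not_lt.mp hcon)
    have hg' : (E N K β h (F h) ρ : ℝ) ≤ 2 * T := by linarith
    have hbound : |F h - ∑ i, B i * h i| ≤ (36 * k + 17) * ρ := by
      set a : Fin k → ℕ := fun i => min (h i) L with ha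
      set c : Fin k → ℕ := fun i => h i - min (h i) L with hc
      have hac : a + c = h := by
        funext i
        simp only [ha, hc, Pi.add_apply]
        omega
      have haL : ∀ i, a i ≤ L := fun i => by
        simp only [ha]
        omega
      have hcL : ∀ i, c i ≤ L := fun i => by
        have := (hhM i).2
        simp only [hc]
        omega
      have h2 := comb (N := N) (K := K) (β := β) (L := L) (a := a) (b := c) (v := f a)
        (w := f c) (u := F h) (r := 2 * ρ) (r' := 2 * ρ) (r'' := ρ) haL
        (by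
          rw [hac]
          exact hlt _ _ _ (hf a haL) (hf c hcL) hg')
      have h3 := hB a haL
      have h4 := hB c hcL
      have h5 : ∑ i, B i * (h i : ℝ) = ∑ i, B i * (a i : ℝ) + ∑ i, B i * (c i : ℝ) := by
        rw [← Finset.sum_add_distrib]
        refine Finset.sum_congr rfl fun i _ => ?_
        rw [← mul_add]
        congr 1
        rw [← Nat.cast_add]
        congr 1
        exact (congrFun hac i).symm
      rw [h5]
      rw [abs_le] at h2 h3 h4 ⊢
      constructor <;> nlinarith [h2.1, h2.2, h3.1, h3.2, h4.1, h4.2]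
    have h9 : (36 * (k : ℝ) + 17) * ρ ≤ (8 * q + 36 * k + 17) * ρ := by
      refine mul_le_mul_of_nonneg_right ?_ hρ
      linarith
    linarith [hh'.2]
  exact_mod_cast Finset.card_le_card hsub

end Pool.KAL
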