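import Pool.Agent.H56.KAL.Stmts3

/-!
# The Cauchy equation on an interval, for almost all pairs
-/

set_option autoImplicit false

namespace Pool.KAL

open Finset Real

namespace CAU

/-- Nearly additive functions on an initial segment are nearly linear. -/
theorem skof {L : ℕ} (hL : 0 < L) {f : ℕ → ℝ} {δ : ℝ}
    (h : ∀ a b, a + b ≤ L → |f (a + b) - f a - f b| ≤ δ) {x : ℕ} (hx : x ≤ L) :
    |f x - f L / L * x| ≤ 2 * δ := by
  have hL0 : (0 : ℝ) < L := by exact_mod_cast hL
  have h0 : |f 0| ≤ δ := by
    have := h 0 0 (Nat.zero_le _)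
    have e : f (0 + 0) - f 0 - f 0 = - f 0 := by
      rw [Nat.add_zero]
      ring
    rw [e, abs_neg] at this
    exact this
  have hδ : 0 ≤ δ := (abs_nonneg _).trans h0
  rcases Nat.eq_or_lt_of_le hx with hxL | hxL
  · rw [hxL]
    have : f L - f L / L * L = 0 := by
      field_simp
      ring
    rw [this, abs_zero]
    linarith
  -- one step, with carry
  have step : ∀ r, r < L → |f ((r + x) % L) + (((r + x) / L : ℕ) : ℝ) * f L - f r - f x| ≤
      2 * δ := by
    intro r hr
    rcases Nat.lt_or_ge (r + x) L with h1 | h1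
    · rw [Nat.mod_eq_of_lt h1, Nat.div_eq_of_lt h1]
      have := h r x h1.le
      rw [Nat.cast_zero, zero_mul, add_zero]
      linarith
    · have h2 : r + x < 2 * L := by omega
      have e1 : (r + x) / L = 1 := by
        rw [Nat.div_eq_iff hL]
        omega
      have e2 : (r + x) % L = r + x - L := by
        have := Nat.div_add_mod (r + x) L
        rw [e1] at this
        omega
      rw [e1, e2, Nat.cast_one, one_mul]
      have a1 := h r (L - r) (by omega)
      have a2 := h (L - r) (r + x - L) (by omega)
      have e3 : r + (L - r) = L := by omega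
      have e4 : L - r + (r + x - L) = x := by omega
      rw [e3] at a1
      rw [e4] at a2
      rw [abs_le] at a1 a2 ⊢
      constructor <;> linarith [a1.1, a1.2, a2.1, a2.2]
  have main : ∀ n : ℕ, |f ((n * x) % L) + ((n * x / L : ℕ) : ℝ) * f L - n * f x - f 0| ≤
      n * (2 * δ) := by
    intro n
    induction n with
    | zero => simp
    | succ n ih =>
      have hs := step ((n * x) % L) (Nat.mod_lt _ hL)
      have e1 : (n * x % L + x) % L = ((n + 1) * x) % L := by
        rw [Nat.mod_add_mod]
        congr 1
        ring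
      have e2 : (n + 1) * x / L = n * x / L + (n * x % L + x) / L := by
        have h3 : (n + 1) * x = L * (n * x / L) + (n * x % L + x) := by
          have := Nat.div_add_mod (n * x) L
          have h4 : (n + 1) * x = n * x + x := by ring
          rw [h4]
          omega
        rw [h3, Nat.mul_add_div hL]
      rw [e1] at hs
      rw [e2]
      push_cast
      rw [abs_le] at ih hs ⊢
      constructor <;> nlinarith [ih.1, ih.2, hs.1, hs.2]
  have hm := main L
  have e1 : L * x % L = 0 := Nat.mul_mod_right L x
  have e2 : L * x / L = x := Nat.mul_div_cancel_left x hL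
  rw [e1, e2] at hm
  have e3 : f 0 + (x : ℝ) * f L - L * f x - f 0 = -(L * (f x - f L / L * x)) := by
    field_simp
    ring
  rw [e3, abs_neg, abs_mul, abs_of_pos hL0] at hm
  exact le_of_mul_le_mul_left hm hL0

section

variable (N K : ℕ) (β : ℕ → ℝ)

/-- Number of exceptions: `β (y + a) - β y` is not within `r` of `v`. -/
noncomputable def E (a : ℕ) (v r : ℝ) : ℕ :=
  ((Ico K N).filter fun y => r < |β (y + a) - β y - v|).card

variable {N K β}

lemma E_zero : E N K β 0 0 0 = 0 := by
  unfold E
  rw [Finset.card_eq_zero, Finset.filter_eq_empty_iff]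
  intro y _
  simp

/-- Comparison of the increments. -/
lemma comb {L a b : ℕ} {v w u r r' r'' : ℝ} (ha : a ≤ L)
    (h : E N K β a v r + E N K β b w r' + E N K β (a + b) u r'' < N - L - K) :
    |u - v - w| ≤ r + r' + r'' := by
  have hinj : ((Ico K (N - L)).filter fun y => r' < |β (y + a + b) - β (y + a) - w|).card ≤
      E N K β b w r' := by
    unfold E
    refine Finset.card_le_card_of_injOn (fun y => y + a) ?_ ?_
    · intro y hy
      have hy' := Finset.mem_filter.mp hy
      have h1 := Finset.mem_Ico.mp hy'.1
      exact Finset.mem_filter.mpr ⟨Finset.mem_Ico.mpr ⟨by dsimp only; omega, by dsimp only; omega⟩,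
        hy'.2⟩
    · intro y _ y' _ e
      exact Nat.add_right_cancel e
  have h1 : ((Ico K (N - L)).filter fun y => r < |β (y + a) - β y - v|).card ≤ E N K β a v r := by
    unfold E
    refine Finset.card_le_card ?_
    intro y hy
    have hy' := Finset.mem_filter.mp hy
    have h1 := Finset.mem_Ico.mp hy'.1
    exact Finset.mem_filter.mpr ⟨Finset.mem_Ico.mpr ⟨h1.1, by omega⟩, hy'.2⟩
  have h2 : ((Ico K (N - L)).filter fun y => r'' < |β (y + (a + b)) - β y - u|).card ≤
      E N K β (a + b) u r'' := by
    unfold E
    refine Finset.card_le_card ?_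
    intro y hy
    have hy' := Finset.mem_filter.mp hy
    have h1 := Finset.mem_Ico.mp hy'.1
    exact Finset.mem_filter.mpr ⟨Finset.mem_Ico.mpr ⟨h1.1, by omega⟩, hy'.2⟩
  by_contra hcon
  push Not at hcon
  have hcov : Ico K (N - L) ⊆
      (((Ico K (N - L)).filter fun y => r < |β (y + a) - β y - v|) ∪
      ((Ico K (N - L)).filter fun y => r' < |β (y + a + b) - β (y + a) - w|)) ∪
      ((Ico K (N - L)).filter fun y => r'' < |β (y + (a + b)) - β y - u|) := by
    intro y hy
    by_contra hn
    simp only [Finset.mem_union, Finset.mem_filter, hy, true_and, not_or, not_lt] at hn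
    obtain ⟨⟨n1, n2⟩, n3⟩ := hn
    rw [← Nat.add_assoc] at n3
    have : |u - v - w| ≤ r + r' + r'' := by
      rw [abs_le] at n1 n2 n3 ⊢
      constructor <;> linarith [n1.1, n1.2, n2.1, n2.2, n3.1, n3.2]
    linarith
  have hc := Finset.card_le_card hcov
  have hu1 := Finset.card_union_le
    (((Ico K (N - L)).filter fun y => r < |β (y + a) - β y - v|) ∪
      ((Ico K (N - L)).filter fun y => r' < |β (y + a + b) - β (y + a) - w|))
    ((Ico K (N - L)).filter fun y => r'' < |β (y + (a + b)) - β y - u|)
  have hu2 := Finset.card_union_le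
    ((Ico K (N - L)).filter fun y => r < |β (y + a) - β y - v|)
      ((Ico K (N - L)).filter fun y => r' < |β (y + a + b) - β (y + a) - w|)
  rw [Nat.card_Ico] at hc
  omega

end

end CAU

open CAU in
/-- **Cauchy equation on an interval, almost all pairs.** -/
theorem cau_thm : CAUStmt := by
  classical
  refine ⟨1 / 200, by norm_num, 40, by norm_num, ?_⟩
  intro N M β F ρ ε hM hMN hρ hε hε₀ hcount
  have hN : 0 < N := by omega
  have hN0 : (0 : ℝ) < N := by exact_mod_cast hN
  have hM0 : (0 : ℝ) < M := by exact_mod_cast hM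
  set b : ℕ → ℕ := fun h => ((range N).filter fun y => ρ < |β (y + h) - β y - F h|).card with hb
  have hsum : (∑ h ∈ range M, (b h : ℝ)) ≤ ε * (N * M) := by
    refine le_trans (le_of_eq ?_) hcount
    rw [← Nat.cast_sum]
    congr 1
    rw [Finset.card_filter, Finset.sum_product_right]
    refine Finset.sum_congr rfl fun h _ => ?_
    simp only [hb, Finset.card_filter]
  -- exceptional steps
  have hG : (((range M).filter fun h => (N : ℝ) / 40 < (b h : ℝ)).card : ℝ) ≤ 40 * ε * M := by
    have h1 : (((range M).filter fun h => (N : ℝ) / 40 < (b h : ℝ)).card : ℝ) * ((N : ℝ) / 40) ≤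
        ε * (N * M) := by
      refine le_trans ?_ hsum
      rw [← nsmul_eq_mul, ← Finset.sum_const]
      refine le_trans (Finset.sum_le_sum (fun h hh => (Finset.mem_filter.mp hh).2.le)) ?_
      exact Finset.sum_le_sum_of_subset_of_nonneg (Finset.filter_subset _ _)
        (fun _ _ _ => Nat.cast_nonneg _)
    have h2 : (((range M).filter fun h => (N : ℝ) / 40 < (b h : ℝ)).card : ℝ) * N ≤
        40 * ε * M * N := by
      nlinarith
    exact le_of_mul_le_mul_right h2 hN0
  set L : ℕ := M / 2 with hL
  set K : ℕ := M - L with hK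
  have hKN : N - L - K = N - M := by omega
  -- good steps
  have hgood : ∀ h, h < M → (b h : ℝ) ≤ N / 40 → (E N K β h (F h) ρ : ℝ) ≤ N / 40 := by
    intro h _ hbh
    refine le_trans ?_ hbh
    have : E N K β h (F h) ρ ≤ b h := by
      unfold E
      rw [hb]
      refine Finset.card_le_card ?_
      intro y hy
      have hy' := Finset.mem_filter.mp hy
      have h1 := Finset.mem_Ico.mp hy'.1
      exact Finset.mem_filter.mpr ⟨Finset.mem_range.mpr h1.2, hy'.2⟩
    exact_mod_cast this
  -- extension to all small steps
  have hext : ∀ a, a ≤ L → ∃ v, (E N K β a v (2 * ρ) : ℝ) ≤ N / 20 := by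
    intro a ha
    -- a shift s with both s and a + s good
    have hs : ∃ s, s < K ∧ (b s : ℝ) ≤ N / 40 ∧ (b (a + s) : ℝ) ≤ N / 40 := by
      by_contra hcon
      push Not at hcon
      have hcov : range K ⊆
          ((range M).filter fun h => (N : ℝ) / 40 < (b h : ℝ)) ∪
          ((range K).filter fun s => (N : ℝ) / 40 < (b (a + s) : ℝ)) := by
        intro s hs
        have hsK := Finset.mem_range.mp hs
        rw [Finset.mem_union, Finset.mem_filter, Finset.mem_filter]
        by_cases h1 : (b s : ℝ) ≤ N / 40
        · exact Or.inr ⟨hs, hcon s hsK h1⟩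
        · exact Or.inl ⟨Finset.mem_range.mpr (by omega), not_le.mp h1⟩
      have h1 : ((range K).filter fun s => (N : ℝ) / 40 < (b (a + s) : ℝ)).card ≤
          ((range M).filter fun h => (N : ℝ) / 40 < (b h : ℝ)).card := by
        refine Finset.card_le_card_of_injOn (fun s => a + s) ?_ ?_
        · intro s hs
          have hs' := Finset.mem_filter.mp hs
          have h2 := Finset.mem_range.mp hs'.1
          exact Finset.mem_filter.mpr ⟨Finset.mem_range.mpr (by dsimp only; omega), hs'.2⟩
        · intro s _ s' _ e
          exact Nat.add_left_cancel e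
      have h2 := (Finset.card_le_card hcov).trans (Finset.card_union_le _ _)
      rw [Finset.card_range] at h2
      have h3 : (K : ℝ) ≤ 2 * (40 * ε * M) := by
        have h4 : (K : ℝ) ≤ 2 * (((range M).filter fun h => (N : ℝ) / 40 < (b h : ℝ)).card : ℝ) := by
          have : K ≤ 2 * ((range M).filter fun h => (N : ℝ) / 40 < (b h : ℝ)).card := by omega
          exact_mod_cast this
        linarith
      have h5 : (M : ℝ) ≤ 2 * K := by
        have : M ≤ 2 * K := by omega
        exact_mod_cast this
      nlinarith
    obtain ⟨s, hsK, hs1, hs2⟩ := hs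
    refine ⟨F (a + s) - F s, ?_⟩
    have h1 : E N K β a (F (a + s) - F s) (2 * ρ) ≤ b s + b (a + s) := by
      unfold E
      have hsub : ((Ico K N).filter fun y => 2 * ρ < |β (y + a) - β y - (F (a + s) - F s)|) ⊆
          ((Ico K N).filter fun y => ρ < |β (y - s + s) - β (y - s) - F s|) ∪
          ((Ico K N).filter fun y => ρ < |β (y - s + (a + s)) - β (y - s) - F (a + s)|) := by
        intro y hy
        have hy' := Finset.mem_filter.mp hy
        have h2 := Finset.mem_Ico.mp hy'.1
        by_contra hn
        simp only [Finset.mem_union, Finset.mem_filter, hy'.1, true_and, not_or, not_lt] at hn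
        obtain ⟨n1, n2⟩ := hn
        have e1 : y - s + s = y := by omega
        have e2 : y - s + (a + s) = y + a := by omega
        rw [e1] at n1
        rw [e2] at n2
        have h3 : |β (y + a) - β y - (F (a + s) - F s)| ≤ 2 * ρ := by
          rw [abs_le] at n1 n2 ⊢
          constructor <;> linarith [n1.1, n1.2, n2.1, n2.2]
        linarith [hy'.2]
      refine (Finset.card_le_card hsub).trans ((Finset.card_union_le _ _).trans ?_)
      have hi : ∀ c, ((Ico K N).filter fun y => ρ < |β (y - s + c) - β (y - s) - F c|).card ≤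
          b c := by
        intro c
        rw [hb]
        refine Finset.card_le_card_of_injOn (fun y => y - s) ?_ ?_
        · intro y hy
          have hy' := Finset.mem_filter.mp hy
          have h2 := Finset.mem_Ico.mp hy'.1
          exact Finset.mem_filter.mpr ⟨Finset.mem_range.mpr (by dsimp only; omega), hy'.2⟩
        · intro y hy y' hy' e
          have h2 := Finset.mem_Ico.mp (Finset.mem_filter.mp hy).1
          have h3 := Finset.mem_Ico.mp (Finset.mem_filter.mp hy').1
          simp only at e
          omega
      exact Nat.add_le_add (hi s) (hi (a + s))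
    have h2 : (E N K β a (F (a + s) - F s) (2 * ρ) : ℝ) ≤ b s + b (a + s) := by exact_mod_cast h1
    linarith
  choose! f hf using hext
  -- many points
  have hNM : (N : ℝ) / 2 ≤ ((N - M : ℕ) : ℝ) := by
    rw [Nat.cast_sub (by omega)]
    have : 2 * (M : ℝ) ≤ N := by exact_mod_cast hMN
    linarith
  have hlt : ∀ i j k : ℕ, (i : ℝ) ≤ N / 20 → (j : ℝ) ≤ N / 20 → (k : ℝ) ≤ N / 20 →
      i + j + k < N - L - K := by
    intro i j k hi hj hk
    rw [hKN]
    have : ((i + j + k : ℕ) : ℝ) < ((N - M : ℕ) : ℝ) := by
      push_cast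
      linarith
    exact_mod_cast this
  have hadd : ∀ a c, a + c ≤ L → |f (a + c) - f a - f c| ≤ 6 * ρ := by
    intro a c hac
    have h1 := comb (N := N) (K := K) (β := β) (L := L) (a := a) (b := c) (v := f a) (w := f c)
      (u := f (a + c)) (r := 2 * ρ) (r' := 2 * ρ) (r'' := 2 * ρ) (by omega)
      (hlt _ _ _ (hf a (by omega)) (hf c (by omega)) (hf (a + c) hac))
    linarith
  -- good steps which are not exceptional are linear
  obtain ⟨B, hB⟩ : ∃ B : ℝ, ∀ x, x ≤ L → |f x - B * x| ≤ 12 * ρ := by
    rcases Nat.eq_zero_or_pos L with h0 | h0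
    · refine ⟨0, fun x hx => ?_⟩
      have hx0 : x = 0 := by omega
      subst hx0
      have := hadd 0 0 (Nat.zero_le _)
      have e : f (0 + 0) - f 0 - f 0 = - f 0 := by
        rw [Nat.add_zero]
        ring
      rw [e, abs_neg] at this
      rw [zero_mul, sub_zero]
      linarith
    · refine ⟨f L / L, fun x hx => ?_⟩
      have := skof h0 hadd hx
      linarith
  refine ⟨B, le_trans ?_ hG⟩
  have hsub : ((range M).filter fun h => 40 * ρ < |F h - B * h|) ⊆
      (range M).filter fun h => (N : ℝ) / 40 < (b h : ℝ) := by
    intro h hh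
    have hh' := Finset.mem_filter.mp hh
    have hhM := Finset.mem_range.mp hh'.1
    refine Finset.mem_filter.mpr ⟨hh'.1, ?_⟩
    by_contra hcon
    have hg := hgood h hhM (not_lt.mp hcon)
    have hg' : (E N K β h (F h) ρ : ℝ) ≤ N / 20 := by linarith
    have hbound : |F h - B * h| ≤ 29 * ρ := by
      rcases Nat.lt_or_ge L h with h1 | h1
      · -- long steps
        have e1 : L + (h - L) = h := by omega
        have h2 := comb (N := N) (K := K) (β := β) (L := L) (a := L) (b := h - L) (v := f L)
          (w := f (h - L)) (u := F h) (r := 2 * ρ) (r' := 2 * ρ) (r'' := ρ) le_rfl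
          (by
            rw [e1]
            exact hlt _ _ _ (hf L le_rfl) (hf (h - L) (by omega)) hg')
        have h3 := hB L le_rfl
        have h4 := hB (h - L) (by omega)
        rw [Nat.cast_sub h1.le] at h4
        rw [abs_le] at h2 h3 h4 ⊢
        constructor <;> linarith [h2.1, h2.2, h3.1, h3.2, h4.1, h4.2]
      · have h2 := comb (N := N) (K := K) (β := β) (L := L) (a := h) (b := 0) (v := f h)
          (w := 0) (u := F h) (r := 2 * ρ) (r' := 0) (r'' := ρ) h1
          (by
            rw [E_zero, Nat.add_zero]
            exact hlt _ 0 _ (hf h h1) (by rw [Nat.cast_zero]; positivity) hg')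
        have h3 := hB h h1
        rw [abs_le] at h2 h3 ⊢
        constructor <;> linarith [h2.1, h2.2, h3.1, h3.2]
    have : |F h - B * h| ≤ 40 * ρ := by linarith
    linarith [hh'.2]
  exact_mod_cast Finset.card_le_card hsub

end Pool.KAL
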